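import Pool.Agent.H15CC.Big

set_option autoImplicit false

/-!
Any universal bound `k` on `t_SCC` over 3-connected graphs is at least 3: the conjectured value `k = 2` is wrong.
-/
namespace Pool.Agent.Results.MP_c57e60_co.BoundAtLeastThree

open SimpleGraph

/-- `G` has at least four vertices and no set of fewer than three vertices disconnects it. -/
def ThreeConnected {V : Type} [Fintype V] (G : SimpleGraph V) : Prop :=
  3 < Fintype.card V ∧
    ∀ S : Finset V, S.card < 3 → (G.induce ((↑S : Set V)ᶜ)).Connected

open Classical in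
/-- The number of members of the family `F` of closed walks in which the edge `e` lies. -/
noncomputable def multiplicity {V : Type} {G : SimpleGraph V} (F : List (Σ u : V, G.Walk u u))
    (e : Sym2 V) : ℕ :=
  F.countP (fun c => decide (e ∈ c.2.edges))

/-- `F` is a cycle cover of `G`: a finite family (list, repetitions allowed) of cycles covering every edge. -/
def IsCycleCover {V : Type} (G : SimpleGraph V) (F : List (Σ u : V, G.Walk u u)) : Prop :=
  (∀ c ∈ F, c.2.IsCycle) ∧ ∀ e ∈ G.edgeSet, ∃ c ∈ F, e ∈ c.2.edges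

/-- The length of a family of cycles. -/
def totalLength {V : Type} {G : SimpleGraph V} (F : List (Σ u : V, G.Walk u u)) : ℕ :=
  (F.map (fun c => c.2.length)).sum

/-- `F` is a shortest cycle cover of `G`. -/
def IsShortestCycleCover {V : Type} (G : SimpleGraph V) (F : List (Σ u : V, G.Walk u u)) : Prop :=
  IsCycleCover G F ∧ ∀ F' : List (Σ u : V, G.Walk u u), IsCycleCover G F' → totalLength F ≤ totalLength F'

/-- `t_SCC(G) ≤ k`: some shortest cycle cover of `G` has every edge in at most `k` of its cycles. -/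
def TSCCLe {V : Type} (G : SimpleGraph V) (k : ℕ) : Prop :=
  ∃ F : List (Σ u : V, G.Walk u u), IsShortestCycleCover G F ∧ ∀ e ∈ G.edgeSet, multiplicity F e ≤ k

theorem big_bad (F : List (Σ u : Fin 26, H15CC.Big.gr.Walk u u)) (hF : IsShortestCycleCover H15CC.Big.gr F) :
    ∃ e ∈ H15CC.Big.gr.edgeSet, 3 ≤ multiplicity F e := by
  by_contra hcon
  obtain ⟨⟨hc, hcov⟩, hmin⟩ := hF
  have h1 := hmin H15CC.Big.cov ⟨H15CC.Big.cov_cycles, H15CC.Big.cov_all⟩
  have h2 := H15CC.Big.lower F hc hcov (fun e he => by
    by_contra h3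
    exact hcon ⟨e, he, by
      have : multiplicity F e = H15CC.mult F e := rfl
      rw [this]
      omega⟩)
  unfold totalLength at h1
  rw [H15CC.Big.cov_len] at h1
  omega

/-- (i) Some 3-connected simple graph `G` (on 26 vertices) has, in every shortest cycle cover, an edge lying in at
least three of the cycles. (ii) Hence every `k` with `t_SCC(G) ≤ k` for all 3-connected `G` is at least 3. -/
theorem result :
    (∃ G : SimpleGraph (Fin 26), ThreeConnected G ∧
      ∀ F : List (Σ u : Fin 26, G.Walk u u), IsShortestCycleCover G F →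
        ∃ e ∈ G.edgeSet, 3 ≤ multiplicity F e) ∧
    ∀ k : ℕ, (∀ (n : ℕ) (G : SimpleGraph (Fin n)), ThreeConnected G → TSCCLe G k) → 3 ≤ k := by
  refine ⟨⟨H15CC.Big.gr, H15CC.Big.three, big_bad⟩, ?_⟩
  intro k hk
  obtain ⟨F, hF, hle⟩ := hk 26 H15CC.Big.gr H15CC.Big.three
  obtain ⟨e, he, h3⟩ := big_bad F hF
  exact le_trans h3 (hle e he)

end Pool.Agent.Results.MP_c57e60_co.BoundAtLeastThree
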